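import Mathlib

/-!
Covering numbers of r-uniform hypergraphs all of whose subhypergraphs on at most 3r-3 vertices
have covering number at most one: two-sided bounds for the best constant t(r).
-/

namespace Pool.Agent.Results.MP_51656a_co.LocalCover

open Finset

/-- An `r`-uniform hypergraph: a finite vertex set `V` (of natural numbers) and a finite set `E`
of `r`-element subsets of `V`. -/
def IsHypergraph (r : ℕ) (V : Finset ℕ) (E : Finset (Finset ℕ)) : Prop :=
  ∀ e ∈ E, e ⊆ V ∧ e.card = r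

/-- The local condition: for every set `S` of at most `3r - 3` vertices, the edges contained
in `S` (if there are any) have a common vertex. -/
def LocalCond (r : ℕ) (V : Finset ℕ) (E : Finset (Finset ℕ)) : Prop :=
  ∀ S ⊆ V, S.card ≤ 3 * r - 3 → (∃ e ∈ E, e ⊆ S) → ∃ v, ∀ e ∈ E, e ⊆ S → v ∈ e

/-- `T` meets every edge. -/
def IsCover (E : Finset (Finset ℕ)) (T : Finset ℕ) : Prop :=
  ∀ e ∈ E, (T ∩ e).Nonempty

/-- The covering number: the least size of a set of vertices that meets every edge. -/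
noncomputable def coverNumber (V : Finset ℕ) (E : Finset (Finset ℕ)) : ℕ :=
  sInf {k | ∃ T ⊆ V, T.card = k ∧ IsCover E T}

/-- `t(r)`: the supremum of the covering numbers of the `r`-uniform hypergraphs that satisfy
the local condition. -/
noncomputable def best (r : ℕ) : ℕ∞ :=
  ⨆ G : {G : Finset ℕ × Finset (Finset ℕ) //
    IsHypergraph r G.1 G.2 ∧ LocalCond r G.1 G.2}, (coverNumber G.1.1 G.1.2 : ℕ∞)

section upper

variable {r s : ℕ} {E : Finset (Finset ℕ)}

lemma three_inter (hr : 3 ≤ r) (hE : ∀ e ∈ E, e.card = r)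
    (hL : ∀ S : Finset ℕ, S.card ≤ 3 * r - 3 → (∃ e ∈ E, e ⊆ S) → ∃ v, ∀ e ∈ E, e ⊆ S → v ∈ e)
    {A B C : Finset ℕ} (hA : A ∈ E) (hB : B ∈ E) (hC : C ∈ E) :
    (A ∩ B ∩ C).Nonempty := by
  have pair : ∀ P ∈ E, ∀ Q ∈ E, (P ∩ Q).Nonempty := by
    intro P hP Q hQ
    have hc : (P ∪ Q).card ≤ 3 * r - 3 := by
      have := card_union_le P Q
      rw [hE P hP, hE Q hQ] at this
      omega
    obtain ⟨v, hv⟩ := hL (P ∪ Q) hc ⟨P, hP, subset_union_left⟩
    exact ⟨v, mem_inter.2 ⟨hv P hP subset_union_left, hv Q hQ subset_union_right⟩⟩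
  by_contra hne
  rw [not_nonempty_iff_eq_empty] at hne
  have h1 : (A ∩ B).card ≥ 1 := card_pos.2 (pair A hA B hB)
  have h2 : (A ∩ C).card ≥ 1 := card_pos.2 (pair A hA C hC)
  have h3 : (B ∩ C).card ≥ 1 := card_pos.2 (pair B hB C hC)
  have e1 : (A ∪ B).card + (A ∩ B).card = r + r := by
    rw [card_union_add_card_inter, hE A hA, hE B hB]
  have e2 : (A ∪ B ∪ C).card + ((A ∪ B) ∩ C).card = (A ∪ B).card + r := by
    rw [card_union_add_card_inter, hE C hC]
  have e3 : ((A ∪ B) ∩ C).card = (A ∩ C).card + (B ∩ C).card := by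
    rw [union_inter_distrib_right, card_union_of_disjoint]
    rw [disjoint_left]
    intro v hv hv'
    have : v ∈ A ∩ B ∩ C := by
      simp only [mem_inter] at hv hv' ⊢
      exact ⟨⟨hv.1, hv'.1⟩, hv.2⟩
    rw [hne] at this
    simp at this
  have hc : (A ∪ B ∪ C).card ≤ 3 * r - 3 := by omega
  obtain ⟨v, hv⟩ := hL (A ∪ B ∪ C) hc
    ⟨A, hA, subset_union_left.trans subset_union_left⟩
  have : v ∈ A ∩ B ∩ C := by
    simp only [mem_inter]
    exact ⟨⟨hv A hA (subset_union_left.trans subset_union_left),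
      hv B hB (subset_union_right.trans subset_union_left)⟩, hv C hC subset_union_right⟩
  rw [hne] at this
  simp at this

/-- An edge that misses `s` vertices of `A ∩ B` meets `A ∪ B` in at least `x + s` vertices. -/
lemma big_trace {A B D X : Finset ℕ} {x : ℕ} (hx : (A ∩ B).card = x)
    (hXI : X ⊆ A ∩ B) (hXs : X.card = s) (hD : Disjoint X D)
    (hA : x ≤ (D ∩ A).card) (hB : x ≤ (D ∩ B).card) :
    x + s ≤ (D ∩ (A ∪ B)).card := by
  have e1 : (D ∩ (A ∪ B)).card + (D ∩ A ∩ (D ∩ B)).card = (D ∩ A).card + (D ∩ B).card := by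
    rw [inter_union_distrib_left, card_union_add_card_inter]
  have e2 : (D ∩ A ∩ (D ∩ B)).card + s ≤ x := by
    have hsub : D ∩ A ∩ (D ∩ B) ∪ X ⊆ A ∩ B := by
      intro v hv
      rcases mem_union.1 hv with h | h
      · simp only [mem_inter] at h ⊢
        exact ⟨h.1.2, h.2.2⟩
      · exact hXI h
    have hdis : Disjoint (D ∩ A ∩ (D ∩ B)) X := by
      rw [disjoint_left]
      intro v hv hvX
      simp only [mem_inter] at hv
      exact (disjoint_left.1 hD hvX) hv.1.1
    have := card_le_card hsub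
    rw [card_union_of_disjoint hdis, hx, hXs] at this
    exact this
  omega

/-- A small family of edges with large traces on `A ∪ B` and no common vertex inside `J`. -/
lemma family {A B : Finset ℕ} {x : ℕ} (hx : (A ∩ B).card = x) (hsx : s ≤ x)
    (hmA : ∀ D ∈ E, x ≤ (D ∩ A).card) (hmB : ∀ D ∈ E, x ≤ (D ∩ B).card)
    (hs : ∀ T : Finset ℕ, T.card ≤ s → ∃ e ∈ E, Disjoint T e) :
    ∀ k : ℕ, ∀ J ⊆ A ∩ B, J.card ≤ k * s → ∃ F ⊆ E, F.card ≤ k ∧
      (∀ D ∈ F, x + s ≤ (D ∩ (A ∪ B)).card) ∧ ∀ v ∈ J, ∃ D ∈ F, v ∉ D := by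
  intro k
  induction k with
  | zero =>
    intro J _ hJc
    refine ⟨∅, by simp, by simp, by simp, ?_⟩
    intro v hv
    have : J.card = 0 := by omega
    rw [card_eq_zero] at this
    rw [this] at hv
    simp at hv
  | succ k ih =>
    intro J hJ hJc
    obtain ⟨X, hXI, hXs, hX⟩ : ∃ X ⊆ A ∩ B, X.card = s ∧ (J \ X).card ≤ k * s := by
      rcases le_total J.card s with h | h
      · obtain ⟨X, hJX, hXI, hXs⟩ := exists_subsuperset_card_eq hJ h (by omega)
        refine ⟨X, hXI, hXs, ?_⟩
        rw [sdiff_eq_empty_iff_subset.2 hJX]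
        simp
      · obtain ⟨X, hXJ, hXs⟩ := exists_subset_card_eq h
        refine ⟨X, hXJ.trans hJ, hXs, ?_⟩
        rw [card_sdiff_of_subset hXJ, hXs]
        have : (k + 1) * s = k * s + s := by ring
        omega
    obtain ⟨D, hD, hXD⟩ := hs X (by omega)
    obtain ⟨F, hFE, hFc, hFt, hFv⟩ := ih (J \ X) (sdiff_subset.trans hJ) hX
    refine ⟨insert D F, insert_subset hD hFE, (card_insert_le _ _).trans (by omega), ?_, ?_⟩
    · intro D' hD'
      rcases mem_insert.1 hD' with h | h
      · rw [h]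
        exact big_trace hx hXI hXs hXD (hmA D hD) (hmB D hD)
      · exact hFt D' h
    · intro v hv
      by_cases hvX : v ∈ X
      · exact ⟨D, mem_insert_self _ _, disjoint_left.1 hXD hvX⟩
      · obtain ⟨D', hD', hv'⟩ := hFv v (mem_sdiff.2 ⟨hv, hvX⟩)
        exact ⟨D', mem_insert_of_mem hD', hv'⟩

lemma main_upper (hr : 3 ≤ r) (hs1 : 1 ≤ s) (hE : ∀ e ∈ E, e.card = r)
    (hL : ∀ S : Finset ℕ, S.card ≤ 3 * r - 3 → (∃ e ∈ E, e ⊆ S) → ∃ v, ∀ e ∈ E, e ⊆ S → v ∈ e)
    (hs : ∀ T : Finset ℕ, T.card ≤ s → ∃ e ∈ E, Disjoint T e) : 5 * s + 1 ≤ r := by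
  have hpair : ∀ A ∈ E, ∀ B ∈ E, s + 1 ≤ (A ∩ B).card := by
    intro A hA B hB
    by_contra h
    obtain ⟨e, he, hd⟩ := hs (A ∩ B) (by omega)
    obtain ⟨v, hv⟩ := three_inter hr hE hL hA hB he
    rw [mem_inter] at hv
    exact disjoint_left.1 hd hv.1 hv.2
  obtain ⟨e0, he0, -⟩ := hs ∅ (by simp)
  obtain ⟨⟨A, B⟩, hAB, hmin⟩ := exists_min_image (E ×ˢ E)
    (fun p => (p.1 ∩ p.2).card) ⟨(e0, e0), mem_product.2 ⟨he0, he0⟩⟩
  obtain ⟨hA, hB⟩ := mem_product.1 hAB
  simp only at hA hB hmin
  obtain ⟨x, hx⟩ : ∃ x, (A ∩ B).card = x := ⟨_, rfl⟩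
  have hmn : ∀ P ∈ E, ∀ Q ∈ E, x ≤ (P ∩ Q).card := by
    intro P hP Q hQ
    have := hmin (P, Q) (mem_product.2 ⟨hP, hQ⟩)
    simp only at this
    omega
  have hxs : s + 1 ≤ x := by
    have := hpair A hA B hB
    omega
  -- at least one further edge
  have hxr : x + s ≤ r := by
    obtain ⟨X, hXI, hXs⟩ := exists_subset_card_eq (s := A ∩ B) (n := s) (by omega)
    obtain ⟨D, hD, hXD⟩ := hs X (by omega)
    have h1 := big_trace hx hXI hXs hXD (hmn D hD A hA) (hmn D hD B hB)
    have h2 : (D ∩ (A ∪ B)).card ≤ D.card := card_le_card inter_subset_left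
    rw [hE D hD] at h2
    omega
  have key : ∀ k : ℕ, x ≤ k * s → 3 * r - 2 ≤ 2 * r - x + k * (r - (x + s)) := by
    intro k hk
    obtain ⟨F, hFE, hFc, hFt, hFv⟩ := family hx (by omega) (fun D hD => hmn D hD A hA)
      (fun D hD => hmn D hD B hB) hs k (A ∩ B) (Subset.refl _) (by omega)
    by_contra hlt
    set S : Finset ℕ := (A ∪ B) ∪ F.biUnion id with hS
    have hAS : A ⊆ S := subset_union_left.trans subset_union_left
    have hBS : B ⊆ S := subset_union_right.trans subset_union_left
    have hFS : ∀ D ∈ F, D ⊆ S := fun D hD =>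
      (subset_biUnion_of_mem id hD).trans subset_union_right
    have hSc : S.card ≤ (A ∪ B).card + ∑ D ∈ F, (D \ (A ∪ B)).card := by
      have hsub : S ⊆ (A ∪ B) ∪ F.biUnion (fun D => D \ (A ∪ B)) := by
        intro v hv
        rw [hS, mem_union] at hv
        by_cases hU : v ∈ A ∪ B
        · exact mem_union_left _ hU
        · rcases hv with h | h
          · exact absurd h hU
          · obtain ⟨D, hD, hvD⟩ := mem_biUnion.1 h
            exact mem_union_right _ (mem_biUnion.2 ⟨D, hD, mem_sdiff.2 ⟨hvD, hU⟩⟩)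
      calc S.card ≤ _ := card_le_card hsub
        _ ≤ (A ∪ B).card + (F.biUnion (fun D => D \ (A ∪ B))).card := card_union_le _ _
        _ ≤ _ := by
          gcongr
          exact card_biUnion_le
    have hU : (A ∪ B).card = 2 * r - x := by
      have := card_union_add_card_inter A B
      rw [hE A hA, hE B hB, hx] at this
      omega
    have hsum : ∑ D ∈ F, (D \ (A ∪ B)).card ≤ k * (r - (x + s)) := by
      calc ∑ D ∈ F, (D \ (A ∪ B)).card ≤ ∑ D ∈ F, (r - (x + s)) := by
            refine sum_le_sum fun D hD => ?_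
            have h1 := card_sdiff_add_card_inter D (A ∪ B)
            rw [hE D (hFE hD)] at h1
            have h2 := hFt D hD
            omega
        _ = F.card * (r - (x + s)) := by simp
        _ ≤ k * (r - (x + s)) := Nat.mul_le_mul_right _ hFc
    have hSle : S.card ≤ 3 * r - 3 := by
      rw [hU] at hSc
      omega
    obtain ⟨v, hv⟩ := hL S hSle ⟨A, hA, hAS⟩
    have hvA := hv A hA hAS
    have hvB := hv B hB hBS
    obtain ⟨D, hD, hvD⟩ := hFv v (mem_inter.2 ⟨hvA, hvB⟩)
    exact hvD (hv D (hFE hD) (hFS D hD))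
  rcases le_or_gt x (2 * s) with h2 | h2
  · have := key 2 h2
    omega
  rcases le_or_gt x (3 * s) with h3 | h3
  · have := key 3 h3
    omega
  rcases le_or_gt x (4 * s) with h4 | h4
  · have := key 4 h4
    omega
  · omega

end upper

section lower

/-- The private vertices of the edge with core `B`. -/
def priv (s p : ℕ) (B : Finset ℕ) : Finset ℕ :=
  (range p).image (fun i => 3 * s + 1 + Nat.pair (Encodable.encode B) i)

/-- The edge with core `B`. -/
def edge (s p : ℕ) (B : Finset ℕ) : Finset ℕ := B ∪ priv s p B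

/-- The cores. -/
def cores (s : ℕ) : Finset (Finset ℕ) := (range (3 * s + 1)).powersetCard (2 * s + 1)

lemma priv_ge {s p : ℕ} {B : Finset ℕ} {v : ℕ} (hv : v ∈ priv s p B) : 3 * s + 1 ≤ v := by
  obtain ⟨i, -, rfl⟩ := mem_image.1 hv
  omega

lemma priv_card (s p : ℕ) (B : Finset ℕ) : (priv s p B).card = p := by
  rw [priv, card_image_of_injective, card_range]
  intro i j hij
  simp only at hij
  have h : Nat.pair (Encodable.encode B) i = Nat.pair (Encodable.encode B) j := by omega
  exact (Nat.pair_eq_pair.1 h).2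

lemma priv_disjoint {s p : ℕ} {B C : Finset ℕ} {v : ℕ} (hB : v ∈ priv s p B)
    (hC : v ∈ priv s p C) : B = C := by
  obtain ⟨i, -, rfl⟩ := mem_image.1 hB
  obtain ⟨j, -, hj⟩ := mem_image.1 hC
  have h : Nat.pair (Encodable.encode C) j = Nat.pair (Encodable.encode B) i := by omega
  exact (Encodable.encode_injective (Nat.pair_eq_pair.1 h).1).symm

lemma core_lt {s : ℕ} {B : Finset ℕ} (hB : B ∈ cores s) {v : ℕ} (hv : v ∈ B) : v < 3 * s + 1 :=
  mem_range.1 ((mem_powersetCard.1 hB).1 hv)

lemma core_card {s : ℕ} {B : Finset ℕ} (hB : B ∈ cores s) : B.card = 2 * s + 1 :=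
  (mem_powersetCard.1 hB).2

lemma edge_card {s p : ℕ} {B : Finset ℕ} (hB : B ∈ cores s) :
    (edge s p B).card = 2 * s + 1 + p := by
  rw [edge, card_union_of_disjoint, priv_card, core_card hB]
  rw [disjoint_left]
  intro v hv hv'
  have := core_lt hB hv
  have := priv_ge hv'
  omega

/-- Edges of the construction without a common vertex span many vertices. -/
lemma span_large {s p r : ℕ} (hp : 2 * s + 1 + p = r) (h16 : 16 * s ≤ 3 * r)
    (F : Finset (Finset ℕ)) (hF : F ⊆ cores s) (hne : F.Nonempty)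
    (hcom : ∀ v, ∃ B ∈ F, v ∉ edge s p B)
    (S : Finset ℕ) (hS : ∀ B ∈ F, edge s p B ⊆ S) : 3 * r - 3 < S.card := by
  -- number of edges
  have hm : 3 * s + 1 ≤ F.card * s := by
    have hsub : range (3 * s + 1) ⊆ F.biUnion (fun B => range (3 * s + 1) \ B) := by
      intro v hv
      obtain ⟨B, hB, hvB⟩ := hcom v
      refine mem_biUnion.2 ⟨B, hB, mem_sdiff.2 ⟨hv, fun h => hvB (mem_union_left _ h)⟩⟩
    calc 3 * s + 1 = (range (3 * s + 1)).card := by simp
      _ ≤ _ := card_le_card hsub
      _ ≤ ∑ B ∈ F, (range (3 * s + 1) \ B).card := card_biUnion_le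
      _ = ∑ B ∈ F, s := by
        refine sum_congr rfl fun B hB => ?_
        have hBc := hF hB
        rw [card_sdiff_of_subset (mem_powersetCard.1 hBc).1, core_card hBc, card_range]
        omega
      _ = F.card * s := by simp
  have hs : 1 ≤ s := by
    rcases Nat.eq_zero_or_pos s with h | h
    · subst h; simp at hm
    · exact h
  have hm4 : 4 ≤ F.card := by
    by_contra h
    have h3 : F.card ≤ 3 := by omega
    have := Nat.mul_le_mul_right s h3
    omega
  set W : Finset ℕ := F.biUnion id with hW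
  have hWlt : ∀ v ∈ W, v < 3 * s + 1 := by
    intro v hv
    obtain ⟨B, hB, hvB⟩ := mem_biUnion.1 hv
    exact core_lt (hF hB) hvB
  have hSc : W.card + F.card * p ≤ S.card := by
    have hsub : W ∪ F.biUnion (priv s p) ⊆ S := by
      intro v hv
      rcases mem_union.1 hv with h | h
      · obtain ⟨B, hB, hvB⟩ := mem_biUnion.1 h
        exact hS B hB (mem_union_left _ hvB)
      · obtain ⟨B, hB, hvB⟩ := mem_biUnion.1 h
        exact hS B hB (mem_union_right _ hvB)
    have hdis : Disjoint W (F.biUnion (priv s p)) := by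
      rw [disjoint_left]
      intro v hv hv'
      obtain ⟨B, hB, hvB⟩ := mem_biUnion.1 hv'
      have := hWlt v hv
      have := priv_ge hvB
      omega
    have hcard : (F.biUnion (priv s p)).card = F.card * p := by
      rw [card_biUnion]
      · simp [priv_card]
      · intro B hB C hC hBC
        rw [Function.onFun, disjoint_left]
        intro v hv hv'
        exact hBC (priv_disjoint hv hv')
    have := card_le_card hsub
    rw [card_union_of_disjoint hdis, hcard] at this
    exact this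
  have hWB : 2 * s + 1 ≤ W.card := by
    obtain ⟨B, hB⟩ := hne
    rw [← core_card (hF hB)]
    exact card_le_card (subset_biUnion_of_mem id hB)
  have hdc : F.card * (2 * s + 1) ≤ W.card * (F.card - 1) := by
    have h1 : ∑ t ∈ F, (W ∩ t).card ≤ W.card * (F.card - 1) := by
      refine sum_card_inter_le ?_
      intro v hv
      obtain ⟨B, hB, hvB⟩ := hcom v
      have hsub : F.filter (fun t => v ∈ t) ⊆ F.erase B := by
        intro C hC
        rw [mem_filter] at hC
        refine mem_erase.2 ⟨?_, hC.1⟩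
        intro h
        exact hvB (mem_union_left _ (h ▸ hC.2))
      have := card_le_card hsub
      rw [card_erase_of_mem hB] at this
      exact this
    have h2 : ∑ t ∈ F, (W ∩ t).card = F.card * (2 * s + 1) := by
      rw [← smul_eq_mul, ← sum_const]
      refine sum_congr rfl fun B hB => ?_
      have hBW : B ⊆ W := subset_biUnion_of_mem id hB
      rw [inter_eq_right.2 hBW]
      exact core_card (hF hB)
    omega
  rcases Nat.eq_or_lt_of_le hm4 with h | h
  · rw [← h] at hdc hSc
    omega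
  · have h5 : 5 * p ≤ F.card * p := Nat.mul_le_mul_right p h
    omega

lemma construction {r s : ℕ} (hr : 3 ≤ r) (h16 : 16 * s ≤ 3 * r) :
    ∃ V E, IsHypergraph r V E ∧ LocalCond r V E ∧ s + 1 ≤ coverNumber V E := by
  obtain ⟨p, hp⟩ : ∃ p, 2 * s + 1 + p = r := ⟨r - (2 * s + 1), by omega⟩
  set E : Finset (Finset ℕ) := (cores s).image (edge s p) with hE
  set V : Finset ℕ := E.biUnion id with hV
  have hH : IsHypergraph r V E := by
    intro e he
    refine ⟨subset_biUnion_of_mem id he, ?_⟩
    obtain ⟨B, hB, rfl⟩ := mem_image.1 he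
    rw [edge_card hB]
    exact hp
  refine ⟨V, E, hH, ?_, ?_⟩
  · intro S _ hSc hex
    by_contra hno
    push Not at hno
    set F : Finset (Finset ℕ) := (cores s).filter (fun B => edge s p B ⊆ S) with hF
    have h1 : F.Nonempty := by
      obtain ⟨e, he, heS⟩ := hex
      obtain ⟨B, hB, rfl⟩ := mem_image.1 he
      exact ⟨B, mem_filter.2 ⟨hB, heS⟩⟩
    have h2 : ∀ v, ∃ B ∈ F, v ∉ edge s p B := by
      intro v
      obtain ⟨e, he, heS, hve⟩ := hno v
      obtain ⟨B, hB, rfl⟩ := mem_image.1 he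
      exact ⟨B, mem_filter.2 ⟨hB, heS⟩, hve⟩
    have := span_large hp h16 F (filter_subset _ _) h1 h2 S (fun B hB => (mem_filter.1 hB).2)
    omega
  · refine le_csInf ?_ ?_
    · refine ⟨V.card, V, Subset.refl _, rfl, ?_⟩
      intro e he
      have hs := (hH e he).1
      rw [inter_eq_right.2 hs]
      rw [← card_pos, (hH e he).2]
      omega
    · rintro k ⟨T, -, rfl, hT⟩
      by_contra hlt
      have hg : ∀ w : ℕ, ∃ k : ℕ, ∀ B ∈ cores s, w ∈ edge s p B → k ∈ B := by
        intro w
        by_cases hw : ∃ B ∈ cores s, w ∈ priv s p B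
        · obtain ⟨B, hB, hwB⟩ := hw
          have hBne : B.Nonempty := by
            rw [← card_pos, core_card hB]; omega
          obtain ⟨k, hk⟩ := hBne
          refine ⟨k, fun C hC hwC => ?_⟩
          rcases mem_union.1 hwC with h | h
          · have h1 := core_lt hC h
            have h2 := priv_ge hwB
            omega
          · rwa [priv_disjoint h hwB]
        · refine ⟨w, fun C hC hwC => ?_⟩
          rcases mem_union.1 hwC with h | h
          · exact h
          · exact absurd ⟨C, hC, h⟩ hw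
      choose g hg using hg
      have hTc : (T.image g).card ≤ s := card_image_le.trans (by omega)
      have hKc : 2 * s + 1 ≤ (range (3 * s + 1) \ T.image g).card := by
        have := le_card_sdiff (T.image g) (range (3 * s + 1))
        rw [card_range] at this
        omega
      obtain ⟨B, hBK, hBc⟩ := exists_subset_card_eq hKc
      have hB : B ∈ cores s := mem_powersetCard.2 ⟨hBK.trans sdiff_subset, hBc⟩
      obtain ⟨w, hw⟩ := hT (edge s p B) (mem_image_of_mem _ hB)
      rw [mem_inter] at hw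
      have h1 := hg w B hB hw.2
      have h2 := hBK h1
      rw [mem_sdiff] at h2
      exact h2.2 (mem_image_of_mem g hw.1)

end lower

/-- For every `r ≥ 3`, `⌊3r/16⌋ + 1 ≤ t(r) ≤ ⌊(r-1)/5⌋ + 1`. The two bounds agree for every
`r` from `3` to `20`. -/
theorem result (r : ℕ) (hr : 3 ≤ r) :
    ((3 * r / 16 + 1 : ℕ) : ℕ∞) ≤ best r ∧ best r ≤ (((r - 1) / 5 + 1 : ℕ) : ℕ∞) := by
  constructor
  · obtain ⟨V, E, hH, hL, hc⟩ := construction (s := 3 * r / 16) hr (by omega)
    refine le_trans (Nat.cast_le.2 hc) ?_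
    exact le_iSup (fun G : {G : Finset ℕ × Finset (Finset ℕ) //
      IsHypergraph r G.1 G.2 ∧ LocalCond r G.1 G.2} => (coverNumber G.1.1 G.1.2 : ℕ∞))
      ⟨(V, E), hH, hL⟩
  · refine iSup_le ?_
    rintro ⟨⟨V, E⟩, hH, hL⟩
    simp only at hH hL ⊢
    refine Nat.cast_le.2 ?_
    by_contra hlt
    rw [not_le] at hlt
    have h5 := main_upper (r := r) (s := (r - 1) / 5 + 1) (E := E) hr (by omega)
      (fun e he => (hH e he).2) ?_ ?_
    · omega
    · intro S hSc hex
      obtain ⟨e, he, heS⟩ := hex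
      obtain ⟨v, hv⟩ := hL (S ∩ V) inter_subset_right
        ((card_le_card inter_subset_left).trans hSc)
        ⟨e, he, subset_inter heS (hH e he).1⟩
      exact ⟨v, fun f hf hfS => hv f hf (subset_inter hfS (hH f hf).1)⟩
    · intro T hTc
      have hnc : ¬ IsCover E (T ∩ V) := by
        intro hcov
        have : coverNumber V E ≤ (T ∩ V).card :=
          Nat.sInf_le ⟨T ∩ V, inter_subset_right, rfl, hcov⟩
        have := card_le_card (inter_subset_left : T ∩ V ⊆ T)
        omega
      unfold IsCover at hnc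
      push Not at hnc
      obtain ⟨e, he, hemp⟩ := hnc
      refine ⟨e, he, ?_⟩
      rw [disjoint_left]
      intro v hvT hve
      have : v ∈ T ∩ V ∩ e :=
        mem_inter.2 ⟨mem_inter.2 ⟨hvT, (hH e he).1 hve⟩, hve⟩
      rw [hemp] at this
      simp at this

end Pool.Agent.Results.MP_51656a_co.LocalCover
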